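import Pool.Agent.K6.H14.KD.Fin

/-!
# The normalised bracket detects the trivial knotoid among the closures of 3-braids by two caps

For a word `w` in `σ_0^{±1}, σ_1^{±1}` we consider the following knotoid diagram `K(w)`: the braid `w` in a
box; the tail is the lower end of the box at the middle place and the head is the upper end at the
middle place; the other two lower ends are joined by an arc which passes below the tail, the other two
upper ends are joined by an arc which passes above the head.  (A shortcut from the tail to the head has to
cross both arcs; so these knotoids can have height `2`.)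

Definitions in `Pool.Agent.K6.H14.KD.Defs`: `caps s` (the outside of the box; `s` says how the first and the
last strand are directed at the lower side), `knotoid s w` (the diagram `K(w)` with these directions),
`Dgm`, `Move` (Reidemeister moves of types I, II and III of these diagrams), `Untied X` (the diagram `X`
can be changed to the crossingless diagram of the trivial knotoid by moves and inverse moves), `Short`
(the eight braids `σ_i^{±1}`, `σ_i^{±1} σ_{1-i}^{∓1}`).  Definitions in `Pool.Agent.K6.H34.S3.Defs`: `Word`
(words in `σ_0^{±1}, σ_1^{±1}`), `B3`, `σ`, `braid` (the braid group on three strands).  `Diagram.fPoly`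
(normalised bracket) and `Outer` are in the starting library `Pool.Agent.H891R2.Jones.Diagram`, `draw` in
`Pool.Agent.W639.RB.Defs`, `IsKnotoid D` (the pieces of `D` form one oriented interval, running from a
marked point `tail` to a different marked point `head`, and (possibly) oriented closed curves) in
`Pool.Agent.H832R3.TW.E`.
-/

set_option autoImplicit false

namespace Pool.Agent.Results.MP_79b4ff_gt.CappedThreeBraids

open Pool.Agent.H891R2.Jones Pool.Agent.H832R3.TW Pool.Agent.K6.H34.S3 Pool.Agent.K6.H14

/-- Let `w` be a word in the letters `σ_0^{±1}, σ_1^{±1}` of the braid group on three strands.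
* `K(w)` can be directed: there is a Boolean `s` such that `knotoid s w` is a diagram of a knotoid (or
  multi-knotoid).
* For every such `s` the normalised bracket of `knotoid s w` is `1` if and only if `K(w)` can be changed
  by Reidemeister moves into the diagram of the trivial knotoid without crossings.
* This happens exactly if the braid given by `w` is one of the eight braids `σ_i^{±1}`,
  `σ_i^{±1} σ_{1-i}^{∓1}`, `i = 0, 1`. -/
theorem result (w : Word) :
    (∃ s : Bool, IsKnotoid (KD.knotoid s w)) ∧
    ∀ s : Bool, IsKnotoid (KD.knotoid s w) →
      ((KD.knotoid s w).fPoly = 1 ↔ KD.Untied (.three w)) ∧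
      ((KD.knotoid s w).fPoly = 1 ↔ KD.Short (braid w)) :=
  ⟨KD.exists_dir w, fun s hs => ⟨(KD.fPoly_one_iff s w hs).trans (KD.untied_iff w).symm,
    KD.fPoly_one_iff s w hs⟩⟩

end Pool.Agent.Results.MP_79b4ff_gt.CappedThreeBraids
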