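import Pool.Agent.K6.H14.KB.Link
import Pool.Agent.K6.H14.KB.Unt

/-!
# The normalised bracket detects the trivial knotoid among the knotoids cut out of closed 3-braids

Let `D` be the usual diagram of a closed braid on three strands, let `c` be one of its crossings.
Turning the closed braid we may assume that `c = σ_i^{±1}` is the uppermost crossing, so that `D` is the
closure of `w σ_i^{±1}`.  We delete one of the two strands at `c`; the end points are those where the
deleted strand left the box of `w` and entered it again.  What remains is the diagram of a
knotoid of height at most one (possibly with additional closed components), which we call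
`K(i, s, w)`; here `s` says which one of the two strands is deleted.

Definitions in `Pool.Agent.K6.H14.KB.Defs`: `cutOpen i s` (the outside of the box), `knotoid i s w` (the
diagram `K(i, s, w)`), `cutOpenTwo`, `small` (the same for words on two strands), `Dgm`, `Move`
(Reidemeister moves of types I, II and III of these diagrams), `Untied i X` (the diagram `X` can be
changed to the crossingless diagram of the trivial knotoid by moves and inverse moves).  Definitions in
`Pool.Agent.K6.H34.S3.Defs`: `Word` (words in `σ_0^{±1}, σ_1^{±1}`), `B3`, `σ`, `braid` (the braid group
on three strands).  `Diagram.fPoly` (normalised bracket) and `Outer` are in the starting library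
`Pool.Agent.H891R2.Jones.Diagram`, `draw` in `Pool.Agent.W639.RB.Defs`, `IsKnotoid D` (the pieces of `D`
form one oriented interval, running from a marked point `tail` to a different marked point `head`, and
(possibly) oriented closed curves) in `Pool.Agent.H832R3.TW.E`.
-/

set_option autoImplicit false

namespace Pool.Agent.Results.MP_79b4ff_gt.CutThreeBraids

open Pool.Agent.H891R2.Jones Pool.Agent.H832R3.TW Pool.Agent.K6.H34.S3 Pool.Agent.K6.H14

/-- Let `K(i, s, w) = knotoid i s w` be the knotoid diagram which is obtained from the diagram of a closed
braid `w σ_i^{±1}` on three strands by deleting one of the two strands at the crossing `σ_i^{±1}`.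
* `K(i, s, w)` is a diagram of a knotoid (or multi-knotoid).
* The normalised bracket of `K(i, s, w)` is `1` if and only if the diagram can be changed by
  Reidemeister moves into the diagram of the trivial knotoid without crossings.
* This happens exactly for the braids `w = σ_i^k σ_{1-i}^{±1} σ_i^{-k}`, `k ∈ ℤ`. -/
theorem result (i : Fin 2) (s : Bool) (w : Word) :
    IsKnotoid (KB.knotoid i s w) ∧
    ((KB.knotoid i s w).fPoly = 1 ↔ KB.Untied i (.three w)) ∧
    ((KB.knotoid i s w).fPoly = 1 ↔
      ∃ k ε : ℤ, (ε = 1 ∨ ε = -1) ∧ braid w = σ i ^ k * σ (1 - i) ^ ε * σ i ^ (-k)) :=
  ⟨KB.isKnotoid i s w, (KB.fPoly_one_iff i s w).trans (KB.untied_iff i w).symm,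
    KB.fPoly_one_iff i s w⟩

end Pool.Agent.Results.MP_79b4ff_gt.CutThreeBraids
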