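import Pool.Agent.K6.H14.KA.Cls

/-!
# The normalised bracket detects the trivial knotoid among the diagonal closures of rational tangles

A rational tangle is a 3-braid in a box, given by a word `w`, two of whose upper ends at neighbouring
places are joined by a cap; its four ends are the three lower ends and the remaining upper end.  In the
cyclic order of the four ends, the two lower ends at the places `0` and `2` are opposite to each other;
they are the tail and the head of the knotoid; the two other ends are joined by an arc, which passes
around the head (`κ = false`) or around the tail (`κ = true`).  So these are the diagonal closures of the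
rational tangles, with the end points in the two adjacent regions along the closing arc.

Definitions in `Pool.Agent.K6.H14.KA.Defs`: `diag κ s` (the outside of the box; `s` says how the strand at
the place `1` is directed at the lower side), `knotoid κ s w` (the diagram with these directions), `Dgm`,
`Move` (Reidemeister moves of types I, II and III of these diagrams), `Untied X` (the diagram `X` can be
changed to a crossingless diagram of the family by moves and inverse moves), `frac X` (the
fraction `p / q` of the rational tangle).  Definitions in `Pool.Agent.K6.H34.S3.Defs`: `Word` (words in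
`σ_0^{±1}, σ_1^{±1}`), `B3`, `σ`, `braid` (the braid group on three strands); in
`Pool.Agent.K6.H34.S3.Grp`: `Z`, the homomorphism from the braid group to the integral matrices.
`Diagram.fPoly` (normalised bracket) and `Outer` are in the starting library
`Pool.Agent.H891R2.Jones.Diagram`, `draw` in `Pool.Agent.W639.RB.Defs`, `IsKnotoid D` (the pieces of `D`
form one oriented interval, running from a marked point `tail` to a different marked point `head`, and
(possibly) oriented closed curves) in `Pool.Agent.H832R3.TW.E`.
-/

set_option autoImplicit false

namespace Pool.Agent.Results.MP_79b4ff_gt.RationalKnotoids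

open Pool.Agent.H891R2.Jones Pool.Agent.H832R3.TW Pool.Agent.K6.H34.S3 Pool.Agent.K6.H14

/-- Let `X` be a diagonal closure of a rational tangle with the fraction `p / q` (`frac X = (p, q)`).
* `X` can be directed: there is a Boolean `s` such that `knotoid X.κ s X.w` is a diagram of a knotoid (or
  multi-knotoid); let `f` be its normalised bracket for such an `s`.
* `f` is not changed by the moves, and two diagrams `X`, `Y` of the family can be changed into each other
  by moves if and only if their fractions are equal (up to a common sign of numerator and
  denominator).
* If `z` is a primitive eighth root of unity with `z ^ 2 = i`, then `|f(z)|² = p² + q²`.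
* `f = 1` if and only if `X` can be untied by Reidemeister moves; and this happens if and only if
  `p / q` is `0` or `∞`. -/
theorem result (X : KA.Dgm) :
    (∃ s : Bool, IsKnotoid (KA.knotoid X.κ s X.w)) ∧
    (∀ Y : KA.Dgm, Relation.EqvGen KA.Move X Y ↔
      (KA.frac X = KA.frac Y ∨ KA.frac X = (-(KA.frac Y).1, -(KA.frac Y).2))) ∧
    ∀ s : Bool, IsKnotoid (KA.knotoid X.κ s X.w) →
      (∀ Y : KA.Dgm, Relation.EqvGen KA.Move X Y →
        (KA.knotoid X.κ s X.w).fPoly = (KA.knotoid Y.κ s Y.w).fPoly) ∧
      (∀ z : ℂˣ, (z : ℂ) ^ 2 = Complex.I →
        Complex.normSq (LaurentPolynomial.eval₂ (Int.castRingHom ℂ) z (KA.knotoid X.κ s X.w).fPoly) =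
          ((KA.frac X).1 ^ 2 + (KA.frac X).2 ^ 2 : ℝ)) ∧
      ((KA.knotoid X.κ s X.w).fPoly = 1 ↔ KA.Untied X) ∧
      ((KA.knotoid X.κ s X.w).fPoly = 1 ↔ (KA.frac X).1 = 0 ∨ (KA.frac X).2 = 0) := by
  refine ⟨KA.exists_dir X.κ X.w, KA.eqv_iff X, fun s hs => ⟨fun Y h => (KA.eqv_inv h s).2 hs,
    fun z hz => KA.normSq_f X.κ s X.w z hz, KA.fPoly_one_iff X.κ s X.w hs, ?_⟩⟩
  rw [KA.fPoly_one_iff X.κ s X.w hs, ← mul_eq_zero]
  exact KA.untied_iff X

end Pool.Agent.Results.MP_79b4ff_gt.RationalKnotoids
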