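import Pool.Agent.K6.H34.S3.Link
import Pool.Agent.K6.H34.S3.Words
import Pool.Agent.H297.FT.Knotoid

/-!
# The normalised bracket detects the trivial knotoid among the spiral closures of braids on three strands

Definitions in `Pool.Agent.K6.H34.S3.Defs`: `spiral m` (the outside of the box of the spiral closure on `m`
strands), `Word` (words in `σ_0^{±1}, σ_1^{±1}`), `knotoid w` (the spiral closure of a word on three
strands), `B3`, `σ`, `braid` (the braid group on three strands), `Move` (Reidemeister moves of types II and
III on words, and the move of the uppermost crossing around the spiral), `Untied w` (the word `w` can be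
changed to the empty word by moves and inverse moves).  `Diagram.fPoly` (normalised bracket) and `Outer`
are in the starting library `Pool.Agent.H891R2.Jones.Diagram`, `draw` in `Pool.Agent.W639.RB.Defs`,
`IsKnotoid D` (the pieces of `D` form one oriented interval, running from a marked point `tail` to a
different marked point `head`, and (possibly) oriented closed curves) in `Pool.Agent.H832R3.TW.E`.
-/

set_option autoImplicit false

namespace Pool.Agent.Results.MP_79b4ff_gt.SpiralThreeBraids

open Finset LaurentPolynomial Pool.Agent.H891R2.Jones Pool.Agent.W639.RB Pool.Agent.H297.FT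
  Pool.Agent.H832R3.TW Pool.Agent.K6.H34.S3

theorem kgood_draw {m : ℕ} (v : Fin m → Bool) (w : List (Bool × ℕ)) : ∀ (O : Outer m),
    KGood O v → KGood (draw O w) v := by
  induction w with
  | nil => intro O h; exact h
  | cons x w ih =>
    intro O h
    exact ih _ (KGood_push O v x.1 x.2 h)

theorem isKnotoid_spiral : IsKnotoid (spiral 3).close := by
  refine ⟨(0 : Fin 4), (3 : Fin 4), show (0 : Fin 4) ≠ 3 by decide, ?_⟩
  intro p
  change Fin 4 at p
  have h1 : (spiral 3).close.starts = [(0 : Fin 4), 1, 2] := rfl
  have h2 : (spiral 3).close.ends = [(1 : Fin 4), 2, 3] := rfl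
  rw [h1, h2]
  fin_cases p <;> decide

theorem isKnotoid (w : Word) : IsKnotoid (knotoid w) := by
  unfold knotoid
  have h1 := (draw_up (nat w) (spiral 3) (nat_mem w) (fun _ => rfl)).1
  have h2 : (draw (spiral 3) (nat w)).up = (spiral 3).up := by
    funext j
    rw [h1]
    rfl
  rw [knotoid_iff, h2]
  exact kgood_draw _ _ _ ((knotoid_iff _).1 isKnotoid_spiral)

theorem fPoly_move {w w' : Word} (h : Move w w') : (knotoid w).fPoly = (knotoid w').fPoly := by
  have hex : expo (nat w) = expo (nat w') := by
    cases h with
    | cancel u v b i => cases b <;> simp [nat, expo]
    | braid u v b => cases b <;> simp [nat, expo]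
    | slide w b => cases b <;> simp [nat, expo, add_comm]
  have hL : Lam uT (braid w) = Lam uT (braid w') := by
    cases h with
    | cancel u v b i => rw [braid_append, braid_cancel, ← braid_append]
    | braid u v b => rw [braid_append, braid_braid, ← braid_append]
    | slide w b =>
      rw [braid_append, braid_cons, braid_cons, braid_nil, mul_one]
      obtain ⟨ε, hε⟩ : ∃ ε : ℤ, ∀ i, (if b then σ i else (σ i)⁻¹) = σ i ^ ε := by
        cases b
        · exact ⟨-1, fun i => by simp⟩
        · exact ⟨1, fun i => by simp⟩
      rw [hε, hε]
      exact Lam_slide uT _ _
  have hb : (knotoid w).bracket = (knotoid w').bracket := by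
    apply mul_left_cancel₀ one_add_dl_ne
    rw [K6.H34.S3.bracket_eq, K6.H34.S3.bracket_eq, hL]
  rw [fPoly_eq, fPoly_eq, hex, hb]

/-- For every word `w` in the letters `σ_0^{±1}, σ_1^{±1}` of the braid group on three strands let
`K(w) = knotoid w` be the knotoid diagram (possibly with additional closed components) obtained by
closing `w` spirally: the upper end of the strand at the place `j` is joined around the box to the lower
end of the strand at the place `j + 1`; the tail is the lower end at the place `0` and the head the upper
end at the place `2`.
* `K(w)` is a diagram of a knotoid (or multi-knotoid), and its normalised bracket does not change under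
  the moves `Move`: Reidemeister moves II and III, and moving the uppermost crossing around the spiral.
* The normalised bracket of `K(w)` is `1` if and only if the diagram can be changed by these moves into
  the diagram `K([])` of the trivial knotoid without crossings.
* This happens exactly for the braids `σ_1^k σ_0^{-k}`, `k ∈ ℤ`.
Hence among the knotoids which are spiral closures of braids on three strands the normalised bracket
detects the trivial knotoid. -/
theorem result (w : Word) :
    IsKnotoid (knotoid w) ∧
    (∀ w' : Word, Move w w' → (knotoid w').fPoly = (knotoid w).fPoly) ∧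
    ((knotoid w).fPoly = 1 ↔ Untied w) ∧
    ((knotoid w).fPoly = 1 ↔ ∃ k : ℤ, braid w = σ 1 ^ k * σ 0 ^ (-k)) :=
  ⟨isKnotoid w, fun _ h => (fPoly_move h).symm, (fPoly_one_iff w).trans (untied_iff w).symm,
    fPoly_one_iff w⟩

end Pool.Agent.Results.MP_79b4ff_gt.SpiralThreeBraids
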